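import Pool.Agent.KRad.GoFinal

/-!
# Indecomposable quaternionic structures are preserved by quadratic extensions

Let `F` be a field of characteristic not two with finitely many square classes, and let `E` be
obtained from `F` by finitely many successive quadratic extensions.  If the quaternionic structure
of `F` has trivial radical and is not a direct product of two nontrivial structures, then the same
holds for `E`.  If `-1` is a square in `F` then the converse holds too.
-/

namespace Pool.Agent.WETC.Old.IndecompExtensions

open Pool.Agent.Hhelper2 Pool.Agent.KRad

universe u

/-- The radical is trivial: only the class `1` is split with all classes. -/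
def TrivialRadical (S : QStr.{u}) : Prop := ∀ a : S.G, (∀ c, S.Split a c) → a = 1

/-- The structure is not a direct product of two nontrivial structures. -/
def Indecomposable (S : QStr.{u}) : Prop :=
  ∀ S₁ S₂ : QStr.{u}, Nonempty (S.Iso (S₁.prod S₂)) → Subsingleton S₁.G ∨ Subsingleton S₂.G

/-- `E` is obtained from `F` by finitely many successive quadratic extensions. -/
inductive Tower (F : Type u) [Field F] : (E : Type u) → [Field E] → Prop
  | base : Tower F F
  | step (K E : Type u) [Field K] [Field E] [Algebra K E] (hK : Tower F K)
      (hE : Module.finrank K E = 2) : Tower F E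

theorem result (F : Type u) [Field F] (h2 : (2 : F) ≠ 0) (hf : Finite (SqClass F))
    (E : Type u) [Field E] (hE : Tower F E) :
    (TrivialRadical (QStr.ofField F) ∧ Indecomposable (QStr.ofField F) →
      TrivialRadical (QStr.ofField E) ∧ Indecomposable (QStr.ofField E)) ∧
    ((∃ i : F, i ^ 2 = -1) →
      TrivialRadical (QStr.ofField E) ∧ Indecomposable (QStr.ofField E) →
      TrivialRadical (QStr.ofField F) ∧ Indecomposable (QStr.ofField F)) := by
  have hT : QuadTower F E := by
    induction hE with
    | base => exact QuadTower.base
    | step K E _ hfin ih => exact QuadTower.step K E ih hfin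
  obtain ⟨h2E, hfE, h3, h4⟩ := quadTower F h2 hf E hT
  have hF := conn_iff F h2
  have hE' := conn_iff E h2E
  exact ⟨fun h => hE'.1 (h3 (hF.2 h)), fun hi h => hF.1 ((h4 hi).2 (hE'.2 h))⟩

end Pool.Agent.WETC.Old.IndecompExtensions
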