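import Pool.Agent.Hhelper2.FourB

/-!
# Fields all of whose value groups have index at most four

Let `F` be a field of characteristic not two with finitely many square classes such that all the
groups `D⟨1, - a⟩` have index at most four in `G = F^* / F^* ^ 2`.  Then the quaternionic structure
of `F` is of elementary type: it is obtained from structures of local type and totally split
structures by direct products and group extensions.
-/

namespace Pool.Agent.WETC.Old.IndexFour

open Pool.Agent.Hhelper2

universe u

theorem result (F : Type u) [Field F] (h2 : (2 : F) ≠ 0) (hfin : Finite (SqClass F))
    (h4 : ∀ a : SqClass F,
      Nat.card (SqClass F) ≤ 4 * Nat.card {b : SqClass F // FieldSplit F a b}) :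
    ElemType (QStr.ofField F) :=
  SmallEl.elemType_of_four F h2 h4

end Pool.Agent.WETC.Old.IndexFour
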