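import Pool.Agent.KRad.Final

/-!
# Hilbert 90 for the Kaplansky radical and the decomposition into blocks without independent classes

Let `F` be a field of characteristic not two with finitely many square classes.

1. (Hilbert 90 for the Kaplansky radical.) For a quadratic extension `E` of `F` and `y ≠ 0` in `E`,
   the norm of `y` is in the Kaplansky radical of `F` if and only if `y` is the product of an
   element of `F` and an element of the Kaplansky radical of `E`.
2. (Independence theorem.) For nonradical classes `a, b` the equality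
   `|N(a)| |N(b)| = |G| |N(a b)|` holds if and only if the quaternionic structure of `F` is a
   direct product with `a` in one factor and `b` in the other.
3. The quaternionic structure of `F` is the direct product of a totally split structure and of
   finitely many structures in which no two classes `a, b ≠ 1` satisfy this equality.
-/

namespace Pool.Agent.WETC.Old.RadicalBlocks

open Pool.Agent.Hhelper2 Pool.Agent.KRad

universe u

/-- `x` is in the Kaplansky radical of `F`: `x ≠ 0` and `X ^ 2 - x Y ^ 2` represents every
element of `F`. -/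
def IsRadical (F : Type u) [Field F] (x : F) : Prop :=
  x ≠ 0 ∧ ∀ y : F, ∃ p q : F, y = p ^ 2 - x * q ^ 2

/-- The order of the group `N(a) = {c | (a, c) split}`. -/
noncomputable def card (S : QStr.{u}) (a : S.G) : ℕ := Nat.card {c : S.G // S.Split a c}

/-- The classes `a` and `b` are independent: `|N(a)| |N(b)| = |G| |N(a b)|`. -/
def Indep (S : QStr.{u}) (a b : S.G) : Prop :=
  card S a * card S b = Nat.card S.G * card S (a * b)

/-- The class `a` is in the radical. -/
def Rad (S : QStr.{u}) (a : S.G) : Prop := ∀ c, S.Split a c

theorem result :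
    (∀ (F E : Type u) [Field F] [Field E] [Algebra F E], (2 : F) ≠ 0 → Finite (SqClass F) →
      Module.finrank F E = 2 → ∀ y : E, y ≠ 0 →
        (IsRadical F (Algebra.norm F y) ↔ ∃ f : F, f ≠ 0 ∧ IsRadical E (algebraMap F E f * y))) ∧
    ∀ (F : Type u) [Field F], (2 : F) ≠ 0 → Finite (SqClass F) →
      (∀ a b : (QStr.ofField F).G, ¬ Rad (QStr.ofField F) a → ¬ Rad (QStr.ofField F) b →
        (Indep (QStr.ofField F) a b ↔
          ∃ (S T : QStr.{u}) (f : (QStr.ofField F).Iso (S.prod T)),
            (f.e a).2 = 1 ∧ (f.e b).1 = 1)) ∧
      ∃ (n : ℕ) (R : QStr.{u}) (S : Fin n → QStr.{u}),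
        Nonempty ((QStr.ofField F).Iso (R.prod (QStr.pi S))) ∧ (∀ a b, R.Split a b) ∧
        ∀ i, Nontrivial (S i).G ∧ ∀ a b : (S i).G, Indep (S i) a b → a = 1 ∨ b = 1 := by
  refine ⟨?_, ?_⟩
  · intro F E _ _ _ h2 hf hfin y hy
    exact rn_genuine F E h2 hf hfin y hy
  · intro F _ h2 hf
    refine ⟨?_, ?_⟩
    · intro a b _ hb
      exact indep_prod F h2 hf a b hb
    · exact blocks_prod F h2 hf

end Pool.Agent.WETC.Old.RadicalBlocks
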