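import Pool.Agent.Hhelper2.Assemble

/-!
# Classes with value group of order two in fields with finitely many square classes

Let `F` be a field of characteristic not two with finitely many square classes.  Its quaternionic
structure is the direct product of structures `L i` of local type, of a totally split structure `R`,
of structures `E j` which are group extensions of structures with nontrivial radical, and of a
structure `T` in which `1` is the only class whose value group has order at most two.  If all the
groups `D⟨1, - a⟩` have index at most `s` in `G = F^* / F^* ^ 2`, then the order of the product of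
`T` and of the `E j` is bounded by a function of `s`.
-/

namespace Pool.Agent.WETC.Old.SmallClasses

open Pool.Agent.Hhelper2 Pool.Agent.Hhelper2.SmallEl

universe u

/-- The decomposition of the quaternionic structure of `F`. -/
structure IsDecomp (F : Type u) [Field F] {κ : Type} {ι : Type u} (T R : QStr.{u})
    (E : κ → QStr.{u}) (L : ι → QStr.{u}) : Prop where
  iso : Nonempty ((QStr.ofField F).Iso (((T.prod (QStr.pi E)).prod R).prod (QStr.pi L)))
  isLocal : ∀ i, (L i).IsLocal
  split : ∀ a b, R.Split a b
  ext : ∀ j, ∃ S : QStr.{u}, Nonempty ((E j).Iso S.ext) ∧ ∃ r : S.G, r ≠ 1 ∧ ∀ x, S.Split r x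
  small : ∀ a, T.IsSmall a → a = 1

theorem result : ∃ c : ℕ → ℕ, ∀ (F : Type u) [Field F], (2 : F) ≠ 0 → Finite (SqClass F) →
    ∃ (κ : Type) (ι : Type u) (T R : QStr.{u}) (E : κ → QStr.{u}) (L : ι → QStr.{u}),
      Finite κ ∧ Finite ι ∧ IsDecomp F T R E L ∧
      ∀ s : ℕ, (∀ a : SqClass F,
        Nat.card (SqClass F) ≤ s * Nat.card {b : SqClass F // FieldSplit F a b}) →
        Nat.card (T.prod (QStr.pi E)).G ≤ c s := by
  refine ⟨cbound, ?_⟩
  intro F _ h2 _
  obtain ⟨Q, _, _, _, V', _, _, _, β', e', κ, _, E, ι, _, L, R, hG, hnd, hs, hr, hE, hL, hR, -,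
    iso, hb⟩ := main_decomp F h2 (Nat.card (SqClass F)) (by
      intro a
      have h1 : 0 < Nat.card {b : SqClass F // FieldSplit F a b} := by
        have : Nonempty {b : SqClass F // FieldSplit F a b} :=
          ⟨⟨1, (QStr.ofField_axioms F h2).one a⟩⟩
        exact Nat.card_pos
      exact Nat.le_mul_of_pos_right _ h1)
  refine ⟨κ, ι, str β' e', R, E, L, inferInstance, inferInstance, ⟨iso, hL, hR, ?_, ?_⟩, hb⟩
  · intro j
    obtain ⟨Vj, _, _, βj, ej, -, -, -, ⟨r, hr0, hrr⟩, -, hiso⟩ := hE j
    exact ⟨_, hiso, Multiplicative.ofAdd r, fun h => hr0 (Multiplicative.ofAdd.injective h),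
      fun x => hrr _⟩
  · exact small_eq_one e' hnd hs

end Pool.Agent.WETC.Old.SmallClasses
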